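import Pool.Agent.TH117.F5.DVersion

/-!
# The analytic Tate conjecture for abelian varieties of dimension at most five over finite fields

Over an algebraic closure of the field with `p` elements each abelian variety is isogenous to the
reduction of an abelian variety of CM type (Honda, Tate). So an abelian variety over the field with
`p ^ a` elements is modelled by a finite product `X` of CM types `(E i, Φ i)` with Weil numbers
`π i ∈ E i` that satisfy the formula of Shimura and Taniyama (`RedAV`); its rational Tate module, with
complex coefficients, is `ℂ ⊗ H_1(X, ℚ)`, on which the Frobenius endomorphism acts by `π`.

Let `Y` be an abelian variety of dimension at most five, with any Newton polygon and any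
decomposition, that is not exceptional (`IsExceptional`: a product `A × B × S` of two abelian surfaces
and a supersingular elliptic curve, such that the CM fields of `A` and `B` are not Galois over `ℚ` and
have the same Galois closure, and the product of two non-conjugate Frobenius eigenvalues of `B` is a
Frobenius eigenvalue of `A` times a square root of the number of elements of the ground field, up to
a root of unity). Let `C r` be rational vector spaces of cohomology classes of degree `2 r` on `Y`
with the following properties of the spaces of classes of algebraic cycles of codimension `r` over
the extension `k` of degree `s` of the ground field (`CycleSystem`): they consist of Tate classes,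
intersection numbers are rational, and the Tate classes in the system `Alg` generated by Tate
classes of degree two and split Weil classes (which are algebraic by theorems of Tate and Markman)
are combinations of elements of `C r` with coefficients in `ℂ`. Then numerically trivial classes in
`C r` are zero, and the function `L(z) = det (1 - Frob Q ^ (-z) | H^{2r}) ^ (-1)`, `Q` the number of
elements of `k`, has at `z = r` a pole of order `dim (C r)`.
-/

namespace Pool.Agent.Results.MP_223b32_ag.AbelianDimensionFive

open Pool.Agent.W495.TA Pool.Agent.W547.KB Pool.Agent.W547.DR Pool.Agent.TH117.F5

/-- `Y` has dimension at most five and is not exceptional. There are systems of rational subspaces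
with the properties of the spaces of classes of algebraic cycles over the extension of degree `s`;
and for all such systems `C` and all `r`, numerically trivial classes in `C r` are zero, and the
L-function of the cohomology of degree `2 r` over this extension has at `r` a pole of order
`dim (C r)`. -/
theorem result (p : ℕ) [Fact p.Prime] (ν : PadicAlgCl p ≃+* ℂ) (Y : RedAV p ν)
    (hY : Module.finrank ℚ Y.X.H1 ≤ 10) (hex : ¬ IsExceptional Y) (s : ℕ) (hs : 0 < s) :
    (∃ C : Sys ℂ Y, CycleSystem s C) ∧
      ∀ C : Sys ℂ Y, CycleSystem s C → ∀ r : ℕ, AnalyticFormula s C r :=
  fiveAnalytic Y hY hex s hs

end Pool.Agent.Results.MP_223b32_ag.AbelianDimensionFive
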