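import Pool.Agent.TH375.KL.Linear
import Pool.Agent.TH375.KL.FamSeries

set_option autoImplicit false

/-!
# The edge of the middle `L`-function for almost all hypersurfaces of even dimension in a linear family

Let `g ∈ ℤ[x₁, …, x_{2r+1}]`.  For `a ∈ ℤ^{2r+1}` and `s ∈ ℤ` let `S(a, s)` be the affine hypersurface
`g(x) + a·x + s = 0` of dimension `2r`.  We prove, with an absolute constant `C`, that for all but
`C (N + z²) (2H)^{2r+1} / K` of the `N H^{2r+1}` pairs `(a, s)` of a box the sum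
`∑_{p ≤ x} (#S(a, s)(𝔽_p) - p^{2r}) / p^r · log p · p^{-w}` is at most `√K` in absolute value
for all `x ≤ z` and all real `w ≥ 1` simultaneously.
-/

namespace Pool.Agent.Results.MP_223b32_ag.AlmostAllHypersurfaces

open Finset

/-- the number of points over `𝔽_p` of the affine hypersurface `g(x) + a·x + s = 0` -/
noncomputable def pts {n : ℕ} (p : ℕ) (g : MvPolynomial (Fin n) ℤ) (a : Fin n → ℤ) (s : ℤ) : ℕ :=
  {u : Fin n → ZMod p | MvPolynomial.aeval u g + ∑ i, (a i : ZMod p) * u i +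
    (s : ZMod p) = 0}.ncard

/-- **The logarithmic derivative up to the edge, for almost all members** -/
theorem result : ∃ C : ℝ, 0 < C ∧ ∀ (r : ℕ) (g : MvPolynomial (Fin (2 * r + 1)) ℤ)
    (A : Fin (2 * r + 1) → ℤ) (M : ℤ) (H N z : ℕ), z ≤ H → ∀ K : ℝ, 0 < K →
    ({q : (Fin (2 * r + 1) → ℤ) × ℤ | (∀ i, A i < q.1 i ∧ q.1 i ≤ A i + H) ∧
      M < q.2 ∧ q.2 ≤ M + N ∧ ∃ x : ℕ, x ≤ z ∧ ∃ w : ℝ, 1 ≤ w ∧ K <
        (∑ p ∈ (range (x + 1)).filter Nat.Prime,
          ((pts p g q.1 q.2 : ℝ) - (p : ℝ) ^ (2 * r)) / (p : ℝ) ^ r *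
            (Real.log p * (p : ℝ) ^ (-w))) ^ 2}.ncard : ℝ) ≤
      C * (N + (z : ℝ) ^ 2) * (2 * (H : ℝ)) ^ (2 * r + 1) / K := by
  obtain ⟨C, hC, h1⟩ := TH375.KL.few_series_fam
  refine ⟨C, hC, ?_⟩
  intro r g A M H N z hz K hK
  have h2 := h1 (Fin (2 * r + 1) → ℤ) (TH375.KL.box A H) (fun a => TH375.KL.dev2 g r a)
    (fun a p t u _ h => TH375.KL.dev2_per g r (fun i => by simp) h)
    ((2 * (H : ℝ)) ^ (2 * r + 1)) (by positivity) M N z ?_ K hK
  · refine le_trans (le_of_eq ?_) h2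
    congr 2
    ext q
    rw [Set.mem_ofPred_eq, Set.mem_ofPred_eq]
    have h3 : q.1 ∈ TH375.KL.box A H ↔ ∀ i, A i < q.1 i ∧ q.1 i ≤ A i + H := by
      unfold TH375.KL.box
      rw [Fintype.mem_piFinset]
      exact forall_congr' fun i => mem_Ioc
    rw [h3]
    refine and_congr_right fun _ => and_congr_right fun _ => and_congr_right fun _ =>
      exists_congr fun x => and_congr_right fun _ => exists_congr fun w =>
        and_congr_right fun _ => ?_
    have h4 : ∑ p ∈ (range (x + 1)).filter Nat.Prime,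
        ((pts p g q.1 q.2 : ℝ) - (p : ℝ) ^ (2 * r)) / (p : ℝ) ^ r *
          (Real.log p * (p : ℝ) ^ (-w)) =
        ∑ p ∈ TH375.KL.Prm x, (TH375.KL.dev2 g r q.1 p q.2 -
          TH375.KL.mv (TH375.KL.dev2 g r q.1) p) * (Real.log p * (p : ℝ) ^ (-w)) := by
      unfold TH375.KL.Prm
      refine sum_congr rfl fun p hp => ?_
      rw [mem_filter] at hp
      have : Fact p.Prime := ⟨hp.2⟩
      rw [TH375.KL.mv_dev2 r g q.1 hp.2, sub_zero]
      unfold TH375.KL.dev2 pts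
      rw [TH375.KL.Rn_eq_ncard]
    rw [h4]
  · intro p hp hpz
    exact TH375.KL.sum_V2_box r g A hp (hpz.trans hz)

end Pool.Agent.Results.MP_223b32_ag.AlmostAllHypersurfaces
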