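import Pool.Agent.TH129.EM.Fg

/-!
# The analytic Tate conjecture over finitely generated fields of characteristic zero, and finite
# products over closed points

`R` is a domain generated as a ring by `t_1, …, t_k` and by finitely many roots of polynomials over
`ℤ[t_1, …, t_k]` with leading coefficients that are units of `R`.  By Noether normalisation every
field `F` of characteristic zero, finitely generated, of transcendence degree `k`, is the field of
fractions of such a ring (also with any given element inverted), and `dim_a(F) = k + 1`.  `X` is a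
smooth projective variety over `F` of dimension `d`, with a smooth projective model over `Spec R`,
given by homogeneous polynomials over `R`.  `L(s) = ∏_x B_x(N(x)^{-s})⁻¹` is the `L`-function of
`H^i(X)`, the product over the closed points `x` of `Spec R`; `B_x` is the polynomial `∏ (1 - α z)` of
the eigenvalues of Frobenius on `H^i` of the fibre of `X` over `x`, read off the numbers of points.
The product converges absolutely for `s > s₀ = i/2 + k + 1`; for `i = 2j` this is
`s₀ = j + dim_a(F)`.  Let `P(T)` be the finite product of the factors with `N(x) ≤ T` at `s₀`.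

* For all real `r` and `A ≠ 0`: `(s - s₀)^r L(s) → A` as `s → s₀+` if and only if
  `P(T) / (log T)^r → A e^{γ r}` as `T → ∞`, `γ` Euler's constant.  So for `i = 2j` the order of the
  pole is defined and equal to `rank A^j(X)` if and only if `P(T) ~ C (log T)^{rank A^j(X)}`.
* `log |P(T)| = log |L(s₀ + 1 / log T)| + O(1)`, without hypotheses.
* If `L` has a meromorphic continuation to a neighbourhood of `s₀`, with order `m` and leading
  coefficient `l` at `s₀`, then `P(T) (log T)^m → l e^{-γ m}`.
-/

set_option autoImplicit false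

open Filter Topology Polynomial

namespace Pool.Agent.Results.MP_223b32_ag.MertensLaw

open Pool.Agent.TH129.EM (points IsModel mnorm IsFrobeniusAt IsEulerSystemOver LFunOver
  partialProductOver)

theorem result {n : ℕ} {R : Type} [CommRing R] [IsDomain R] (k : ℕ) (hR : IsModel R k)
    (X : Set (MvPolynomial (Fin n) R)) (d i N : ℕ) (B : MaximalSpectrum R → ℝ[X])
    (hB : IsEulerSystemOver X d i N B) (s₀ : ℝ) (hs₀ : s₀ = (i : ℝ) / 2 + (k + 1)) :
    (∀ r A : ℝ, A ≠ 0 →
      (Tendsto (fun s : ℝ => (s - s₀) ^ r * LFunOver B s) (𝓝[>] s₀) (𝓝 A) ↔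
        Tendsto (fun T : ℝ => partialProductOver B s₀ T / (Real.log T) ^ r) atTop
          (𝓝 (A * Real.exp (r * Real.eulerMascheroniConstant))))) ∧
    (∃ C : ℝ, ∀ᶠ T : ℝ in atTop, |Real.log (abs (partialProductOver B s₀ T)) -
        Real.log (abs (LFunOver B (s₀ + 1 / Real.log T)))| ≤ C) ∧
    ∀ Λ : ℂ → ℂ, MeromorphicAt Λ (s₀ : ℂ) → (∀ᶠ s : ℝ in 𝓝[>] s₀, Λ s = LFunOver B s) →
      ∃ (m : ℤ) (l : ℝ), l ≠ 0 ∧ meromorphicOrderAt Λ (s₀ : ℂ) = m ∧
        meromorphicTrailingCoeffAt Λ (s₀ : ℂ) = l ∧
        Tendsto (fun T : ℝ => partialProductOver B s₀ T * (Real.log T) ^ (m : ℝ)) atTop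
          (𝓝 (l * Real.exp (-(m * Real.eulerMascheroniConstant)))) := by
  obtain ⟨h1, h2, h3⟩ := hB.law hR
  rw [← hs₀] at h1 h2 h3
  have hshift : Tendsto (fun ε : ℝ => s₀ + ε) (𝓝[>] 0) (𝓝[>] s₀) := by
    rw [tendsto_nhdsWithin_iff]
    constructor
    · have h4 : Continuous fun ε : ℝ => s₀ + ε := by fun_prop
      have h5 := h4.tendsto 0
      rw [add_zero] at h5
      exact tendsto_nhdsWithin_of_tendsto_nhds h5
    · filter_upwards [self_mem_nhdsWithin] with ε hε
      have : (0 : ℝ) < ε := hε
      show s₀ < s₀ + ε
      linarith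
  have hshift' : Tendsto (fun s : ℝ => s - s₀) (𝓝[>] s₀) (𝓝[>] 0) := by
    rw [tendsto_nhdsWithin_iff]
    constructor
    · have h4 : Continuous fun s : ℝ => s - s₀ := by fun_prop
      have h5 := h4.tendsto s₀
      rw [sub_self] at h5
      exact tendsto_nhdsWithin_of_tendsto_nhds h5
    · filter_upwards [self_mem_nhdsWithin] with s hs
      have : s₀ < s := hs
      show 0 < s - s₀
      linarith
  refine ⟨fun r A hA => ?_, h2, fun Λ hΛ he => h3 Λ hΛ ?_⟩
  · rw [← h1 r A hA]
    constructor
    · intro h4
      refine (h4.comp hshift).congr fun ε => ?_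
      simp only [Function.comp_apply]
      rw [add_sub_cancel_left]
    · intro h4
      refine (h4.comp hshift').congr fun s => ?_
      simp only [Function.comp_apply]
      rw [add_sub_cancel]
  · filter_upwards [hshift.eventually he] with ε h4
    rw [← h4]
    push_cast
    rfl

end Pool.Agent.Results.MP_223b32_ag.MertensLaw
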