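import Pool.Agent.W547.UB.Tate

/-!
# Poles of the zeta functions of ordinary abelian varieties in independent blocks

Let `A₀` be an ordinary abelian variety over the field with `q = p ^ a` elements, isogenous (after a
finite extension of the base field) to a product of any number of absolutely simple abelian varieties
`A₀ i` with complex multiplication by CM fields `E i` containing their Frobenius endomorphisms `π i`.
Its canonical lift is isogenous to the product `X` of the abelian varieties `A i` with complex
multiplication by `E i` and the CM types `Φ i` given by the embeddings `φ` for which `φ (π i)` has
slope one.
The factors are divided into blocks (the block of the factor `A i` is `b i`), such that for each block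
there is an automorphism of the field of complex numbers that acts as the complex conjugation on all
embeddings of the CM fields in this block and trivially on all embeddings of the CM fields in the
other blocks (the intersection of the Galois closure of the fields of the block with the compositum of
the Galois closures of the other fields is totally real; for one block this is no condition). Each
block is of one of the following kinds:

* its factors have dimension at most three, and any two of them whose CM fields have the same Galois
  closure over `ℚ` have isomorphic CM types, unless these CM fields are Galois over `ℚ`;
* its factors are factors (up to isogeny) of one abelian variety of CM type of dimension at most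
  five, each with any multiplicity;
* its factors have the same CM type, with a CM field of degree at most fourteen;
* its factors are factors (up to isogeny) of one nondegenerate abelian variety of CM type, of
  arbitrary dimension, each with any multiplicity.

Let `Q = q ^ s`, `s > 0`, and let `A n ⊆ H^{2n}(A₀, ℂ)` be rational vector spaces of cohomology classes
with the following properties of the spaces of the classes of algebraic cycles of codimension `n` over
the field with `Q` elements (`IsCycleSystem`): they consist of Tate classes, their intersection numbers
are rational, and they contain the Tate classes which are, on the lift `X`, polynomials in classes of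
divisors and pull-backs, along homomorphisms, of Weil classes of imaginary quadratic fields on abelian
fourfolds and sixfolds of CM type and of split Weil type (these classes are algebraic by theorems of
Lefschetz and Markman). Then for every `n` the numerically trivial classes in `A n` are zero, and the
zeta function of `A₀` over the field with `Q` elements has at `n` a pole of order `dim (A n)`. (By the
Riemann hypothesis this is the order of the pole at `n` of the `L`-function of `H^{2n}`.) Systems with
these properties exist.
-/

namespace Pool.Agent.Results.MP_223b32_ag.OrdinaryIndependentBlocks

open Module Pool.Agent.W547.KB Pool.Agent.W547.LD Pool.Agent.W530.NF Pool.Agent.W547.LN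
open Pool.Agent.W547.DP Pool.Agent.W547.UB

/-- `X` is the canonical lift of `A₀`, in independent blocks, `V` is the rational Tate module of `A₀`
with complex coefficients, `F` the Frobenius endomorphism. There are systems of rational subspaces with
the properties of the classes of algebraic cycles over the extension of degree `s`; and for all such
systems `A` and all `n`, numerically trivial classes in `A n` are zero, and the zeta function over this
extension has at `n` a pole of order `dim (A n)`. -/
theorem result (p : ℕ) [Fact p.Prime] (a : ℕ) (ha : 0 < a) (ν : PadicAlgCl p ≃+* ℂ)
    (X : CMAV) {J : Type} (b : X.I → J) (hX : IndependentBlocks X b)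
    (π : X.H1) (hπ : IsCanonicalLift p a ν X π) (hw : IsWeilNumber (p ^ a) X π)
    {V : Type} [AddCommGroup V] [Module ℂ V] (C : Comparison X ℂ V) (F : V →ₗ[ℂ] V)
    (hF : IsFrobeniusMap C π F) (s : ℕ) (hs : 0 < s) :
    (∃ A, IsCycleSystem C (F ^ s) ((p ^ a) ^ s) A) ∧
    ∀ A : ∀ n : ℕ, Submodule ℚ (V [⋀^Fin (2 * n)]→ₗ[ℂ] ℂ),
      IsCycleSystem C (F ^ s) ((p ^ a) ^ s) A → ∀ n : ℕ,
        (∀ z ∈ A n, IsNumericallyTrivial C A z → z = 0) ∧
        meromorphicOrderAt (Pool.Agent.H868R3.TwoOdd.zeta (((p ^ a) ^ s : ℕ) : ℝ) (F ^ s)) (n : ℂ) =
          ((-(finrank ℚ (A n) : ℤ) : ℤ) : WithTop ℤ) :=
  Pool.Agent.W547.UB.pole X b hX p a ha ν π hπ hw C F hF s hs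

end Pool.Agent.Results.MP_223b32_ag.OrdinaryIndependentBlocks
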